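import Pool.Agent.R515.HR.U

/-!
The critical Hardy-Rellich inequality with logarithmic weight fails for `k = 2` and all large even
dimensions.
-/

set_option autoImplicit false

namespace Pool.Agent.Results.MP_ec5c38_an.CriticalRellichFails

open MeasureTheory Set Filter Topology InnerProductSpace Laplacian
open scoped Real

/-- `|∇^k u (x)|`: the absolute value of `Δ^(k/2) u` for even `k`, the norm of the gradient of
`Δ^((k-1)/2) u` for odd `k`. -/
noncomputable def nab {N : ℕ} (k : ℕ) (u : EuclideanSpace ℝ (Fin N) → ℝ)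
    (x : EuclideanSpace ℝ (Fin N)) : ℝ :=
  if Even k then |((fun f : EuclideanSpace ℝ (Fin N) → ℝ => Δ f)^[k / 2]) u x|
  else ‖fderiv ℝ (((fun f : EuclideanSpace ℝ (Fin N) → ℝ => Δ f)^[k / 2]) u) x‖

/-- the constant `C_{N,k}` -/
noncomputable def Cst (N k : ℕ) : ℝ :=
  (∏ j ∈ Finset.Icc 1 k, ((j : ℝ) * N - k) / N) ^ ((N : ℝ) / k)

/-- statement (i) of the problem for the given `N`, `k`, `R` -/
def HardyRellich (N k : ℕ) (R : ℝ) : Prop :=
  ∀ u : EuclideanSpace ℝ (Fin N) → ℝ, ContDiff ℝ k u → HasCompactSupport u →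
    tsupport u ⊆ Metric.ball 0 R →
    ENNReal.ofReal (Cst N k) * ∫⁻ x in Metric.ball 0 R,
      ENNReal.ofReal (|u x| ^ ((N : ℝ) / k) / (‖x‖ ^ N * Real.log (R / ‖x‖) ^ N)) ≤
    ∫⁻ x in Metric.ball 0 R, ENNReal.ofReal (nab k u x ^ ((N : ℝ) / k))

open Pool.Agent.R515.HR

lemma Cst_eq {p : ℕ} (hp : 0 < p) :
    Cst (2 * p) 2 = ((2 * (p : ℝ) - 2) / (2 * p) * ((2 * (2 * p) - 2) / (2 * p))) ^ p := by
  unfold Cst
  have h1 : ((2 * p : ℕ) : ℝ) / ((2 : ℕ) : ℝ) = (p : ℝ) := by push_cast; field_simp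
  rw [h1, Real.rpow_natCast]
  congr 1
  rw [show Finset.Icc 1 2 = {1, 2} by decide, Finset.prod_pair (by norm_num)]
  push_cast
  ring

/-- the volume of the unit ball -/
noncomputable def vv (N : ℕ) : ENNReal := volume (Metric.ball (0 : EuclideanSpace ℝ (Fin N)) 1)

lemma vol_ball {N : ℕ} (hN : 0 < N) {r : ℝ} (hr : 0 ≤ r) :
    volume (Metric.ball (0 : EuclideanSpace ℝ (Fin N)) r) = ENNReal.ofReal (r ^ N) * vv N := by
  have : Nonempty (Fin N) := ⟨⟨0, hN⟩⟩
  rw [Measure.addHaar_ball volume (0 : EuclideanSpace ℝ (Fin N)) hr, finrank_euclideanSpace,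
    Fintype.card_fin]
  rfl

lemma vv_pos {N : ℕ} : 0 < vv N := Metric.measure_ball_pos _ _ one_pos
lemma vv_lt {N : ℕ} : vv N < ⊤ := measure_ball_lt_top

/-- upper bound of the right-hand side -/
lemma rhs_le {p : ℕ} (hp : 2 ≤ p) {R : ℝ} (hR : 0 < R) :
    ∫⁻ x in Metric.ball (0 : EuclideanSpace ℝ (Fin (2 * p))) R,
      ENNReal.ofReal (nab 2 (uu p R) x ^ (((2 * p : ℕ) : ℝ) / ((2 : ℕ) : ℝ))) ≤
    ENNReal.ofReal ((2 * (p : ℝ) - 2) ^ (2 * p) * Real.exp 10) * vv (2 * p) := by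
  have h1 : ((2 * p : ℕ) : ℝ) / ((2 : ℕ) : ℝ) = (p : ℝ) := by push_cast; field_simp
  have hp' : (2 : ℝ) ≤ p := by exact_mod_cast hp
  have hm : (0 : ℝ) < 2 * p - 2 := by linarith
  have ht := thr_pos (m := 2 * p - 2) hR
  rw [h1]
  have hb : ∀ x : EuclideanSpace ℝ (Fin (2 * p)), nab 2 (uu p R) x ^ (p : ℝ) ≤
      ((2 * (p : ℝ) - 2) ^ 2 / thr (2 * p - 2) R) ^ p := by
    intro x
    rw [Real.rpow_natCast]
    apply pow_le_pow_left₀
    · unfold nab; rw [if_pos (by decide)]; exact abs_nonneg _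
    · unfold nab
      rw [if_pos (by decide)]
      exact lap_bound hp hR x
  calc ∫⁻ x in Metric.ball (0 : EuclideanSpace ℝ (Fin (2 * p))) R,
      ENNReal.ofReal (nab 2 (uu p R) x ^ (p : ℝ))
      ≤ ∫⁻ _ in Metric.ball (0 : EuclideanSpace ℝ (Fin (2 * p))) R,
        ENNReal.ofReal (((2 * (p : ℝ) - 2) ^ 2 / thr (2 * p - 2) R) ^ p) :=
        lintegral_mono fun x => ENNReal.ofReal_le_ofReal (hb x)
    _ = ENNReal.ofReal (((2 * (p : ℝ) - 2) ^ 2 / thr (2 * p - 2) R) ^ p) *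
        (ENNReal.ofReal (R ^ (2 * p)) * vv (2 * p)) := by
        rw [setLIntegral_const, vol_ball (by omega) hR.le]
    _ = ENNReal.ofReal (((2 * (p : ℝ) - 2) ^ 2 / thr (2 * p - 2) R) ^ p * R ^ (2 * p)) *
        vv (2 * p) := by
        rw [← mul_assoc, ENNReal.ofReal_mul (by positivity)]
    _ ≤ _ := by
        refine mul_le_mul' (ENNReal.ofReal_le_ofReal ?_) le_rfl
        have e1 : ((2 * (p : ℝ) - 2) ^ 2 / thr (2 * p - 2) R) ^ p * R ^ (2 * p) =
            (2 * (p : ℝ) - 2) ^ (2 * p) * (Real.exp (10 / (2 * p - 2))) ^ p := by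
          unfold thr
          rw [div_pow, mul_pow, ← pow_mul, ← pow_mul]
          have e2 : Real.exp (-10 / (2 * (p : ℝ) - 2)) ^ p * Real.exp (10 / (2 * (p : ℝ) - 2)) ^ p =
              1 := by
            rw [← mul_pow, ← Real.exp_add, show -10 / (2 * (p : ℝ) - 2) + 10 / (2 * (p : ℝ) - 2) = 0
              by ring, Real.exp_zero, one_pow]
          have hR' : R ^ (2 * p) ≠ 0 := by positivity
          have he : Real.exp (-10 / (2 * (p : ℝ) - 2)) ^ p ≠ 0 := by positivity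
          rw [div_mul_eq_mul_div, div_eq_iff (mul_ne_zero hR' he)]
          linear_combination (-(2 * (p : ℝ) - 2) ^ (2 * p) * R ^ (2 * p)) * e2
        rw [e1]
        apply mul_le_mul_of_nonneg_left _ (by positivity)
        rw [← Real.exp_nat_mul]
        apply Real.exp_le_exp.mpr
        rw [← mul_div_assoc, div_le_iff₀ hm]
        nlinarith

/-- lower bound of the left-hand side -/
lemma lhs_ge {p : ℕ} (hp : 2 ≤ p) {R : ℝ} (hR : 0 < R) :
    ENNReal.ofReal ((13 / 25 : ℝ) ^ p * (2 * (p : ℝ) - 2) ^ (2 * p) * (Real.exp (-1) / 50)) *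
      vv (2 * p) ≤
    ∫⁻ x in Metric.ball (0 : EuclideanSpace ℝ (Fin (2 * p))) R,
      ENNReal.ofReal (|uu p R x| ^ (((2 * p : ℕ) : ℝ) / ((2 : ℕ) : ℝ)) /
        (‖x‖ ^ (2 * p) * Real.log (R / ‖x‖) ^ (2 * p))) := by
  have h1 : ((2 * p : ℕ) : ℝ) / ((2 : ℕ) : ℝ) = (p : ℝ) := by push_cast; field_simp
  have hp' : (2 : ℝ) ≤ p := by exact_mod_cast hp
  have hm : (0 : ℝ) < 2 * p - 2 := by linarith
  rw [h1]
  obtain ⟨m, hmdef⟩ : ∃ m : ℝ, m = 2 * p - 2 := ⟨_, rfl⟩
  rw [← hmdef] at hm ⊢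
  set r1 := R * Real.exp (-(12 / 25) / m) with hr1
  set r2 := R * Real.exp (-(23 / 50) / m) with hr2
  have hr1p : 0 < r1 := by positivity
  have hr12 : r1 ≤ r2 := by
    apply mul_le_mul_of_nonneg_left _ hR.le
    apply Real.exp_le_exp.mpr
    apply div_le_div_of_nonneg_right _ hm.le
    norm_num
  have hr2R : r2 ≤ R := by
    have : Real.exp (-(23 / 50) / m) ≤ 1 := by
      rw [Real.exp_le_one_iff]
      exact div_nonpos_of_nonpos_of_nonneg (by norm_num) hm.le
    calc r2 ≤ R * 1 := mul_le_mul_of_nonneg_left this hR.le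
      _ = R := mul_one R
  set A : Set (EuclideanSpace ℝ (Fin (2 * p))) := Metric.ball 0 r2 \ Metric.ball 0 r1 with hA
  have hAsub : A ⊆ Metric.ball 0 R := fun x hx => Metric.ball_subset_ball hr2R hx.1
  have hAm : MeasurableSet A := measurableSet_ball.diff measurableSet_ball
  have hvol : volume A = ENNReal.ofReal (r2 ^ (2 * p) - r1 ^ (2 * p)) * vv (2 * p) := by
    rw [hA, measure_sdiff (Metric.ball_subset_ball hr12) measurableSet_ball.nullMeasurableSet
      measure_ball_lt_top.ne, vol_ball (by omega) (hr1p.le.trans hr12), vol_ball (by omega) hr1p.le,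
      ← ENNReal.sub_mul (fun _ _ => vv_lt.ne), ENNReal.ofReal_sub _ (by positivity)]
  have hpt : ∀ x ∈ A, (13 / 25 : ℝ) ^ p * m ^ (2 * p) / R ^ (2 * p) ≤
      |uu p R x| ^ (p : ℝ) / (‖x‖ ^ (2 * p) * Real.log (R / ‖x‖) ^ (2 * p)) := by
    intro x hx
    have hx1 : r1 ≤ ‖x‖ := by
      have := hx.2
      rw [Metric.mem_ball, dist_zero_right, not_lt] at this
      exact this
    have hx2 : ‖x‖ < r2 := by
      have := hx.1
      rwa [Metric.mem_ball, dist_zero_right] at this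
    have hx0 : 0 < ‖x‖ := hr1p.trans_le hx1
    set L := Real.log (R / ‖x‖) with hL
    have hL2 : L ≤ 12 / 25 / m := by
      rw [hL, Real.log_le_iff_le_exp (by positivity), div_le_iff₀ hx0]
      calc R = Real.exp (12 / 25 / m) * r1 := by
            rw [hr1, mul_comm, mul_assoc, ← Real.exp_add]
            rw [show -(12 / 25) / m + 12 / 25 / m = 0 by ring, Real.exp_zero, mul_one]
        _ ≤ _ := mul_le_mul_of_nonneg_left hx1 (Real.exp_pos _).le
    have hL1 : 23 / 50 / m ≤ L := by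
      rw [hL, Real.le_log_iff_exp_le (by positivity), le_div_iff₀ hx0]
      calc Real.exp (23 / 50 / m) * ‖x‖ ≤ Real.exp (23 / 50 / m) * r2 :=
            mul_le_mul_of_nonneg_left hx2.le (Real.exp_pos _).le
        _ = R := by
            rw [hr2, mul_comm, mul_assoc, ← Real.exp_add]
            rw [show -(23 / 50) / m + 23 / 50 / m = 0 by ring, Real.exp_zero, mul_one]
    have hLp : 0 < L := lt_of_lt_of_le (by positivity) hL1
    have hlog : -(m / 2) * Real.log (‖x‖ ^ 2 / R ^ 2) = m * L := by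
      have e1 : Real.log (‖x‖ / R) = - L := by rw [hL, ← Real.log_inv, inv_div]
      rw [← div_pow, Real.log_pow, e1]
      push_cast
      ring
    have hV := V_low (y := m * L) (by rw [div_le_iff₀ hm] at hL1; linarith)
      (by rw [le_div_iff₀ hm] at hL2; linarith)
    have hu : uu p R x = V (m * L) := by
      unfold uu
      rw [psi_pos (by rw [← hmdef]; exact hm) hR (by positivity), ← hmdef, hlog]
    rw [hu, Real.rpow_natCast]
    have h2 : (13 / 25 * (m * L) ^ 2) ^ p ≤ |V (m * L)| ^ p :=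
      pow_le_pow_left₀ (by positivity) (hV.trans (le_abs_self _)) p
    have hxR : ‖x‖ ≤ R := hx2.le.trans hr2R
    calc (13 / 25 : ℝ) ^ p * m ^ (2 * p) / R ^ (2 * p) ≤
        (13 / 25 : ℝ) ^ p * m ^ (2 * p) / ‖x‖ ^ (2 * p) := by
          gcongr
      _ = (13 / 25 * (m * L) ^ 2) ^ p / (‖x‖ ^ (2 * p) * L ^ (2 * p)) := by
          rw [mul_pow, ← pow_mul, mul_pow]
          field_simp
      _ ≤ _ := by
          gcongr
  calc ENNReal.ofReal ((13 / 25 : ℝ) ^ p * m ^ (2 * p) * (Real.exp (-1) / 50)) * vv (2 * p)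
      ≤ ENNReal.ofReal ((13 / 25 : ℝ) ^ p * m ^ (2 * p) / R ^ (2 * p) *
          (r2 ^ (2 * p) - r1 ^ (2 * p))) * vv (2 * p) := by
        refine mul_le_mul' (ENNReal.ofReal_le_ofReal ?_) le_rfl
        have e1 : r2 ^ (2 * p) - r1 ^ (2 * p) = R ^ (2 * p) * (Real.exp (-(23 / 50) * (2 * p / m)) -
            Real.exp (-(12 / 25) * (2 * p / m))) := by
          rw [hr1, hr2, mul_pow, mul_pow, ← Real.exp_nat_mul, ← Real.exp_nat_mul]
          push_cast
          rw [mul_sub]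
          congr 3 <;> ring
        rw [e1]
        have hk1 : 1 ≤ 2 * p / m := by
          rw [le_div_iff₀ hm]; rw [hmdef]; linarith
        have hk2 : 2 * p / m ≤ 2 := by
          rw [div_le_iff₀ hm]; rw [hmdef]; linarith
        have e2 : Real.exp (-1) / 50 ≤ Real.exp (-(23 / 50) * (2 * p / m)) -
            Real.exp (-(12 / 25) * (2 * p / m)) := by
          generalize (2 * p / m : ℝ) = κ at hk1 hk2
          have e3 : Real.exp (-(23 / 50) * κ) = Real.exp (-(12 / 25) * κ) * Real.exp (κ / 50) := by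
            rw [← Real.exp_add]; congr 1; ring
          have e4 := Real.add_one_le_exp (κ / 50)
          have e5 : Real.exp (-1) ≤ Real.exp (-(12 / 25) * κ) := by
            apply Real.exp_le_exp.mpr; linarith
          have e6 := Real.exp_pos (-1)
          rw [e3]
          nlinarith
        have hR' : (0 : ℝ) < R ^ (2 * p) := by positivity
        have e7 : (13 / 25 : ℝ) ^ p * m ^ (2 * p) / R ^ (2 * p) * (R ^ (2 * p) *
            (Real.exp (-(23 / 50) * (2 * p / m)) - Real.exp (-(12 / 25) * (2 * p / m)))) =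
            (13 / 25 : ℝ) ^ p * m ^ (2 * p) *
            (Real.exp (-(23 / 50) * (2 * p / m)) - Real.exp (-(12 / 25) * (2 * p / m))) := by
          field_simp
        rw [e7]
        exact mul_le_mul_of_nonneg_left e2 (by positivity)
    _ = ∫⁻ _ in A, ENNReal.ofReal ((13 / 25 : ℝ) ^ p * m ^ (2 * p) / R ^ (2 * p)) := by
        rw [setLIntegral_const, hvol, ← mul_assoc, ENNReal.ofReal_mul (by positivity)]
    _ ≤ ∫⁻ x in A, ENNReal.ofReal (|uu p R x| ^ (p : ℝ) /
          (‖x‖ ^ (2 * p) * Real.log (R / ‖x‖) ^ (2 * p))) :=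
        setLIntegral_mono' hAm fun x hx => ENNReal.ofReal_le_ofReal (hpt x hx)
    _ ≤ _ := lintegral_mono_set hAsub

lemma num_bound {p : ℕ} (hp : 200 ≤ p) :
    (1.02 : ℝ) ≤ (2 * (p : ℝ) - 2) / (2 * p) * ((2 * (2 * p) - 2) / (2 * p)) * (13 / 25) := by
  have hp' : (200 : ℝ) ≤ p := by exact_mod_cast hp
  have hp0 : (0 : ℝ) < p := by linarith
  have e : (2 * (p : ℝ) - 2) / (2 * p) * ((2 * (2 * p) - 2) / (2 * p)) * (13 / 25) =
      (2 * (p : ℝ) - 2) * (2 * (2 * p) - 2) * (13 / 25) / (4 * p ^ 2) := by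
    field_simp
    ring
  rw [e, le_div_iff₀ (by positivity)]
  nlinarith

/-- For all large `p` and all `R > 0` the critical Hardy-Rellich inequality (i) fails for `k = 2`
in dimension `N = 2 p`. In particular (i), (ii), (iii) do not all hold. -/
theorem result : (∃ p₀ : ℕ, ∀ p : ℕ, p₀ ≤ p → ∀ R : ℝ, 0 < R → ¬ HardyRellich (2 * p) 2 R) ∧
    ¬ ∀ (N k : ℕ) (R : ℝ), 2 ≤ k → k < N → 0 < R → HardyRellich N k R := by
  have main : ∃ p₀ : ℕ, ∀ p : ℕ, p₀ ≤ p → ∀ R : ℝ, 0 < R → ¬ HardyRellich (2 * p) 2 R := by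
    have hlim : Tendsto (fun p : ℕ => (1.02 : ℝ) ^ p) atTop atTop :=
      tendsto_pow_atTop_atTop_of_one_lt (by norm_num)
    obtain ⟨p₁, hp₁⟩ := (hlim.eventually_gt_atTop (Real.exp 10 * 50 / Real.exp (-1))).exists_forall_of_atTop
    refine ⟨max p₁ 200, fun p hp R hR hH => ?_⟩
    have hpa : p₁ ≤ p := (le_max_left _ _).trans hp
    have hpb : 200 ≤ p := (le_max_right _ _).trans hp
    have hp2 : 2 ≤ p := by omega
    have hp' : (200 : ℝ) ≤ p := by exact_mod_cast hpb
    have hm : (0 : ℝ) < 2 * p - 2 := by linarith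
    obtain ⟨hcs, hts⟩ := uu_tsupport hp2 hR
    have h := hH (uu p R) (by exact_mod_cast uu_contDiff hp2 hR) hcs hts
    have h1 := (mul_le_mul_right (lhs_ge hp2 hR) (ENNReal.ofReal (Cst (2 * p) 2))).trans
      (h.trans (rhs_le hp2 hR))
    rw [← mul_assoc] at h1
    have h2 := (ENNReal.mul_le_mul_iff_left vv_pos.ne' vv_lt.ne).mp h1
    have hC : 0 ≤ Cst (2 * p) 2 := by
      rw [Cst_eq (by omega)]
      have : (0 : ℝ) < 2 * (2 * p) - 2 := by linarith
      positivity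
    rw [← ENNReal.ofReal_mul hC, ENNReal.ofReal_le_ofReal_iff (by positivity),
      Cst_eq (by omega)] at h2
    have h3 := pow_le_pow_left₀ (by norm_num) (num_bound hpb) p
    rw [mul_pow] at h3
    have h4 := hp₁ p hpa
    rw [div_lt_iff₀ (Real.exp_pos _)] at h4
    have h5 : (0 : ℝ) < (2 * (p : ℝ) - 2) ^ (2 * p) := by positivity
    have h6 : Real.exp 10 < ((2 * (p : ℝ) - 2) / (2 * p) * ((2 * (2 * p) - 2) / (2 * p))) ^ p *
        (13 / 25) ^ p * (Real.exp (-1) / 50) := by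
      have h7 : 1.02 ^ p * (Real.exp (-1) / 50) ≤ ((2 * (p : ℝ) - 2) / (2 * p) *
          ((2 * (2 * p) - 2) / (2 * p))) ^ p * (13 / 25) ^ p * (Real.exp (-1) / 50) :=
        mul_le_mul_of_nonneg_right h3 (by positivity)
      linarith
    have h8 := mul_lt_mul_of_pos_left h6 h5
    refine absurd h2 (not_le.mpr ?_)
    refine h8.trans_eq ?_
    ring
  refine ⟨main, fun hall => ?_⟩
  obtain ⟨p₀, h₀⟩ := main
  exact h₀ (max p₀ 2) (le_max_left _ _) 1 one_pos (hall _ 2 1 le_rfl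
    (by have := le_max_right p₀ 2; omega) one_pos)

end Pool.Agent.Results.MP_ec5c38_an.CriticalRellichFails
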